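import Pool.Agent.N623.CS.Stm

/-!
# Project CS, task BAIRE1: many almost periods
-/

set_option autoImplicit false

namespace Pool.Agent.N51.CS

open Filter Topology Pool.Agent.N623.CS

/-- the sequence of integers of a sequence of bits -/
def ez (z : ℕ → Bool) : ℕ → ℤ := fun k => if z k = true then 1 else 0

theorem ez_mem (z : ℕ → Bool) (k : ℕ) : ez z k = 0 ∨ ez z k = 1 := by
  unfold ez
  split_ifs
  · exact Or.inr rfl
  · exact Or.inl rfl

theorem ez_congr {z y : ℕ → Bool} {k : ℕ} (h : z k = y k) : ez z k = ez y k := by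
  unfold ez
  rw [h]

section cyl
variable {A : Type} [TopologicalSpace A] [DiscreteTopology A]

/-- a point of an open set has a cylinder in the set -/
theorem open_cyl {u : Set (ℕ → A)} (hu : IsOpen u) {a : ℕ → A} (ha : a ∈ u) :
    ∃ m : ℕ, ∀ b : ℕ → A, (∀ j, j < m → b j = a j) → b ∈ u := by
  obtain ⟨v, ⟨x, n, rfl⟩, hav, hvu⟩ :=
    (PiNat.isTopologicalBasis_cylinders (fun _ : ℕ => A)).exists_subset_of_mem_open ha hu
  refine ⟨n, fun b hb => hvu ?_⟩
  rw [PiNat.mem_cylinder_iff] at hav ⊢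
  intro i hi
  rw [hb i hi, hav i hi]

/-- points of the closure are approximated on finite segments -/
theorem closure_cyl {Q : Set (ℕ → A)} {z : ℕ → A} (hz : z ∈ closure Q) (M : ℕ) :
    ∃ y ∈ Q, ∀ j, j < M → y j = z j := by
  obtain ⟨y, hy, hyQ⟩ := mem_closure_iff.1 hz (PiNat.cylinder z M)
    (PiNat.isOpen_cylinder (fun _ : ℕ => A) z M) (PiNat.self_mem_cylinder z M)
  exact ⟨y, hyQ, fun j hj => PiNat.mem_cylinder_iff.1 hy j hj⟩

end cyl

/-- translations keep properties of residual many points -/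
theorem residual_add {p : (ℕ → ℤ) → Prop} (h : ∀ᶠ b in residual (ℕ → ℤ), p b) (c : ℕ → ℤ) :
    ∀ᶠ b in residual (ℕ → ℤ), p (b + c) := by
  have h1 := tendsto_residual_of_isOpenMap (Homeomorph.addRight c).continuous
    (Homeomorph.addRight c).isOpenMap
  exact h1.eventually h

/-- the condition -/
def Per (ψ : ℕ → (ℕ → ℤ) → (ℕ → Bool)) (i : ℕ × (Σ m : ℕ, Fin m → ℤ)) (z : ℕ → Bool) : Prop :=
  ∀ᶠ a in residual (ℕ → ℤ), (∀ j : Fin i.2.1, a j = i.2.2 j) → ψ i.1 a = ψ i.1 (a + ez z)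

theorem exists_per (ψ : ℕ → (ℕ → ℤ) → (ℕ → Bool)) (hψ : ∀ n, Measurable (ψ n))
    (h : ∀ (a : ℕ → ℤ) (z : ℕ → ℤ), (∀ k, z k = 0 ∨ z k = 1) → ∃ n, ψ n a = ψ n (a + z))
    (z : ℕ → Bool) : ∃ i, Per ψ i z := by
  have hm : ∀ n, MeasurableSet {a : ℕ → ℤ | ψ n a = ψ n (a + ez z)} := fun n =>
    measurableSet_eq_fun (hψ n) ((hψ n).comp (measurable_id.add_const _))
  have hne : ∃ n, ¬ IsMeagre {a : ℕ → ℤ | ψ n a = ψ n (a + ez z)} := by
    by_contra hcon
    push Not at hcon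
    have h1 : IsMeagre (⋃ n, {a : ℕ → ℤ | ψ n a = ψ n (a + ez z)}) := isMeagre_iUnion hcon
    have h2 : (⋃ n, {a : ℕ → ℤ | ψ n a = ψ n (a + ez z)}) = Set.univ := by
      rw [Set.eq_univ_iff_forall]
      intro a
      obtain ⟨n, hn⟩ := h a (ez z) (ez_mem z)
      exact Set.mem_iUnion.2 ⟨n, hn⟩
    rw [h2] at h1
    exact not_isMeagre_of_isOpen isOpen_univ Set.univ_nonempty h1
  obtain ⟨n, hn⟩ := hne
  obtain ⟨u, huo, hu⟩ := (hm n).residualEq_isOpen
  have hu' := Filter.eventuallyEq_set.1 hu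
  have hune : u.Nonempty := by
    by_contra hcon
    rw [Set.not_nonempty_iff_eq_empty] at hcon
    subst hcon
    apply hn
    show _ ∈ residual _
    filter_upwards [hu'] with b hb hb'
    exact (hb.1 hb').elim
  obtain ⟨a, ha⟩ := hune
  obtain ⟨m, hma⟩ := open_cyl huo ha
  refine ⟨(n, ⟨m, fun j => a j⟩), ?_⟩
  show ∀ᶠ b in residual (ℕ → ℤ), (∀ j : Fin m, b j = a j) → ψ n b = ψ n (b + ez z)
  filter_upwards [hu'] with b hb hbm
  exact hb.2 (hma b fun j hj => hbm ⟨j, hj⟩)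

theorem t_baire1 : S_BAIRE1 := by
  intro ψ hψ h
  -- a dense set of periods
  obtain ⟨i, z0, hz0⟩ : ∃ i, (interior (closure {z | Per ψ i z})).Nonempty := by
    apply nonempty_interior_of_iUnion_of_closed (fun i => isClosed_closure)
    rw [Set.eq_univ_iff_forall]
    intro z
    obtain ⟨i, hi⟩ := exists_per ψ hψ h z
    exact Set.mem_iUnion.2 ⟨i, subset_closure hi⟩
  obtain ⟨m0, hm0⟩ := open_cyl isOpen_interior hz0
  obtain ⟨n, m, s⟩ := i
  have hdense : ∀ (z : ℕ → Bool) (M : ℕ), (∀ j, j < max m m0 → z j = z0 j) →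
      ∃ y, Per ψ (n, ⟨m, s⟩) y ∧ ∀ j, j < M → y j = z j := by
    intro z M hz
    have h1 : z ∈ closure {z | Per ψ (n, ⟨m, s⟩) z} :=
      interior_subset (hm0 z fun j hj => hz j (lt_of_lt_of_le hj (le_max_right _ _)))
    obtain ⟨y, hy, hyz⟩ := closure_cyl h1 M
    exact ⟨y, hy, hyz⟩
  set c : ℕ → ℤ := fun j => if hj : j < m then s ⟨j, hj⟩ + ez z0 j else ez z0 j with hc
  -- the group of periods
  let G : AddSubgroup (ℕ → ℤ) :=
    { carrier := {γ | (∀ j, j < max m m0 → γ j = 0) ∧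
        ∀ᶠ b in residual (ℕ → ℤ), (∀ j, j < max m m0 → b j = c j) → ψ n b = ψ n (b + γ)}
      zero_mem' := ⟨fun j _ => rfl, Filter.Eventually.of_forall fun b _ => by rw [add_zero]⟩
      add_mem' := by
        rintro γ γ' ⟨h1, h2⟩ ⟨h3, h4⟩
        refine ⟨fun j hj => by rw [Pi.add_apply, h1 j hj, h3 j hj, add_zero], ?_⟩
        filter_upwards [h2, residual_add h4 γ] with b hb hb' hbc
        rw [hb hbc, hb' (fun j hj => by rw [Pi.add_apply, h1 j hj, add_zero, hbc j hj]), add_assoc]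
      neg_mem' := by
        rintro γ ⟨h1, h2⟩
        refine ⟨fun j hj => by rw [Pi.neg_apply, h1 j hj, neg_zero], ?_⟩
        filter_upwards [residual_add h2 (-γ)] with b hb hbc
        rw [hb (fun j hj => by
          rw [Pi.add_apply, Pi.neg_apply, h1 j hj, neg_zero, add_zero, hbc j hj]),
          neg_add_cancel_right] }
  have hG : ∀ γ, γ ∈ G ↔ (∀ j, j < max m m0 → γ j = 0) ∧
        ∀ᶠ b in residual (ℕ → ℤ), (∀ j, j < max m m0 → b j = c j) → ψ n b = ψ n (b + γ) :=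
    fun γ => Iff.rfl
  have hdiff : ∀ z y : ℕ → Bool, Per ψ (n, ⟨m, s⟩) z → Per ψ (n, ⟨m, s⟩) y →
      (∀ j, j < max m m0 → z j = z0 j) → (∀ j, j < max m m0 → y j = z0 j) → ez y - ez z ∈ G := by
    intro z y hz hy hz1 hy1
    refine (hG _).2 ⟨fun j hj => ?_, ?_⟩
    · rw [Pi.sub_apply, ez_congr (hz1 j hj), ez_congr (hy1 j hj), sub_self]
    · filter_upwards [residual_add hz (-ez z), residual_add hy (-ez z)] with b hb1 hb2 hbc
      have h1 : ∀ j : Fin m, (b + -ez z) (j : ℕ) = s j := by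
        intro j
        have hj : (j : ℕ) < max m m0 := lt_of_lt_of_le j.2 (le_max_left _ _)
        rw [Pi.add_apply, Pi.neg_apply, hbc j hj, hc]
        simp only [j.2, dif_pos]
        rw [ez_congr (hz1 j hj)]
        simp
      have h2 : ψ n (b + -ez z) = ψ n (b + -ez z + ez z) := hb1 h1
      have h3 : ψ n (b + -ez z) = ψ n (b + -ez z + ez y) := hb2 h1
      rw [neg_add_cancel_right] at h2
      rw [← h2, h3]
      congr 1
      abel
  refine ⟨n, max m m0, c, ?_⟩
  intro δ M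
  -- the elements of the group which look like unit vectors
  have hunit : ∀ j, max m m0 ≤ j → j < M → ∃ γ ∈ G, ∀ i, i < M → γ i = if i = j then 1 else 0 := by
    intro j hj hjM
    obtain ⟨z, hz, hz1⟩ := hdense (Function.update z0 j false) M (fun i hi => by
      rw [Function.update_of_ne (by omega)])
    obtain ⟨y, hy, hy1⟩ := hdense (Function.update z0 j true) M (fun i hi => by
      rw [Function.update_of_ne (by omega)])
    refine ⟨ez y - ez z, hdiff z y hz hy (fun i hi => ?_) (fun i hi => ?_), fun i hi => ?_⟩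
    · rw [hz1 i (by omega), Function.update_of_ne (by omega)]
    · rw [hy1 i (by omega), Function.update_of_ne (by omega)]
    · rw [Pi.sub_apply, ez_congr (hz1 i hi), ez_congr (hy1 i hi)]
      by_cases hij : i = j
      · subst hij
        simp [ez]
      · simp [ez, hij]
  choose! g hgG hg using hunit
  refine ⟨∑ j ∈ Finset.Ico (max m m0) M, δ j • g j, ?_⟩
  have hmem : (∑ j ∈ Finset.Ico (max m m0) M, δ j • g j) ∈ G := by
    refine sum_mem fun j hj => zsmul_mem ?_ _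
    rw [Finset.mem_Ico] at hj
    exact hgG j hj.1 hj.2
  obtain ⟨h1, h2⟩ := (hG _).1 hmem
  refine ⟨h1, fun j hj hjM => ?_, h2⟩
  rw [Finset.sum_apply]
  rw [Finset.sum_eq_single j]
  · rw [Pi.smul_apply, hg j hj hjM j hjM, if_pos rfl, smul_eq_mul, mul_one]
  · intro i hi hij
    rw [Finset.mem_Ico] at hi
    rw [Pi.smul_apply, hg i hi.1 hi.2 j hjM, if_neg (Ne.symm hij), smul_zero]
  · intro hj'
    exact (hj' (Finset.mem_Ico.2 ⟨hj, hjM⟩)).elim

end Pool.Agent.N51.CS
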